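import Pool.Graph.R_pool_sql_team_seeded_620a6dc7.Results.MP_288d1b_co.DilateExponent

/-!
# Sums of dilates: the exponent of the library's construction, with any constant

The library's set `AA n l a q U` has `|A| ≥ 4^n a^l`, `|A + 2·A| ≥ 4^n U (2 q)^l` and
`|A + A| ≤ ub n l a q U`. We choose the parameters as functions of a real number `s ≥ 1`.
-/

set_option autoImplicit false

open Finset

namespace Pool.Agent.KS6_95.SD

open Pool.Agent.Results.MP_288d1b_co.DilateExponent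

theorem exists_params (s θ C : ℝ) (hs : 1 ≤ s) (hθ : 1 ≤ θ) (hC : 0 ≤ C)
    (h : (1 + s) ^ θ < 2 * s * (1 + s)) :
    ∃ A : Finset ℤ, A.Nonempty ∧
      C * ((dl 1 A A).card : ℝ) ^ θ < (A.card : ℝ) ^ (θ - 1) * ((dl 2 A A).card : ℝ) := by
  have hs0 : (0 : ℝ) < 1 + s := by linarith
  have hP : (0 : ℝ) < (1 + s) ^ θ := Real.rpow_pos_of_pos hs0 θ
  -- choice of `l`
  obtain ⟨l, hl⟩ := pow_unbounded_of_one_lt (2 * C * 17 ^ θ) ((one_lt_div hP).2 h)
  rw [div_pow, lt_div_iff₀ (pow_pos hP l)] at hl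
  set B : ℝ := (1 + s) ^ l with hB
  have hB1 : 1 ≤ B := one_le_pow₀ (by linarith)
  set U : ℕ := ⌈B⌉₊ with hU
  have hUB : B ≤ U := Nat.le_ceil B
  have hU2 : (U : ℝ) ≤ 2 * B := by
    have := Nat.ceil_lt_add_one (by linarith : (0 : ℝ) ≤ B)
    linarith
  have hU0 : 0 < U := Nat.ceil_pos.2 (by linarith)
  set a : ℕ := 2 * l + 2 with ha
  have ha0 : (0 : ℝ) < a := by rw [ha]; positivity
  have hal : 2 * (l : ℝ) ≤ a := by rw [ha]; push_cast; linarith
  have ha2 : (2 : ℝ) ≤ a := by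
    rw [ha]; push_cast
    have : (0 : ℝ) ≤ l := Nat.cast_nonneg l
    linarith
  set q : ℕ := ⌊s * a⌋₊ with hq
  have hqs : (q : ℝ) ≤ s * a := Nat.floor_le (by positivity)
  have hqs' : s * a - 1 ≤ q := by
    have := Nat.lt_floor_add_one (s * (a : ℝ))
    linarith
  have haq : a ≤ q := Nat.le_floor (by nlinarith)
  -- choice of `n`
  set E : ℕ := (2 * U - 1) * 3 ^ l + U * (q + 1) ^ l + (2 * q - 1) ^ l with hE
  obtain ⟨n, hn⟩ := pow_unbounded_of_one_lt (E : ℝ) (by norm_num : (1 : ℝ) < 4 / 3)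
  rw [div_pow, lt_div_iff₀ (by positivity)] at hn
  have hM0 : (0 : ℝ) < (4 : ℝ) ^ n * (a : ℝ) ^ l := by positivity
  set M : ℝ := (4 : ℝ) ^ n * (a : ℝ) ^ l with hM
  have hal1 : (1 : ℝ) ≤ (a : ℝ) ^ l := one_le_pow₀ (by linarith)
  have h4M : (4 : ℝ) ^ n ≤ M := by
    rw [hM]; exact le_mul_of_one_le_right (by positivity) hal1
  -- the upper bound
  have hub : ((ub n l a q U : ℕ) : ℝ) ≤ 17 * (M * B) := by
    have e1 : ((2 * 4 ^ n * (2 * a - 1) ^ l : ℕ) : ℝ) ≤ 2 * (M * B) := by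
      have h1 : ((2 * 4 ^ n * (2 * a - 1) ^ l : ℕ) : ℝ) ≤ ((2 * 4 ^ n * (2 * a) ^ l : ℕ) : ℝ) := by
        exact_mod_cast Nat.mul_le_mul_left _ (Nat.pow_le_pow_left (Nat.sub_le _ _) _)
      refine h1.trans ?_
      have h2 : (2 : ℝ) ^ l ≤ B := pow_le_pow_left₀ (by norm_num) (by linarith) l
      push_cast
      rw [mul_pow]
      have : (2 : ℝ) * 4 ^ n * (2 ^ l * (a : ℝ) ^ l) = 2 * (M * 2 ^ l) := by rw [hM]; ring
      rw [this]
      have := mul_le_mul_of_nonneg_left h2 hM0.le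
      linarith
    have e2 : ((2 * 4 ^ n * (U * (a + 1) ^ l) : ℕ) : ℝ) ≤ 12 * (M * B) := by
      have h3 : ((a : ℝ) + 1) ^ l ≤ 3 * (a : ℝ) ^ l := by
        have h4 : (1 / (a : ℝ) + 1) ^ l ≤ Real.exp 1 := by
          calc (1 / (a : ℝ) + 1) ^ l ≤ (Real.exp (1 / a)) ^ l :=
                pow_le_pow_left₀ (by positivity) (Real.add_one_le_exp _) l
            _ = Real.exp (l * (1 / a)) := (Real.exp_nat_mul _ l).symm
            _ ≤ Real.exp 1 := by
                apply Real.exp_le_exp.2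
                rw [mul_one_div, div_le_one ha0]
                have : (0 : ℝ) ≤ l := Nat.cast_nonneg l
                linarith
        have h5 : Real.exp 1 ≤ 3 := by
          have := Real.exp_one_lt_d9
          linarith
        have h6 : ((a : ℝ) + 1) ^ l = (1 / (a : ℝ) + 1) ^ l * (a : ℝ) ^ l := by
          rw [← mul_pow]; congr 1; field_simp; ring
        rw [h6]
        exact mul_le_mul_of_nonneg_right (h4.trans h5) (by positivity)
      push_cast
      calc (2 : ℝ) * 4 ^ n * (U * ((a : ℝ) + 1) ^ l) ≤ 2 * 4 ^ n * ((2 * B) * (3 * (a : ℝ) ^ l)) := by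
            gcongr
        _ = 12 * (M * B) := by rw [hM]; ring
    have e3 : ((2 * 4 ^ n * (a + q - 1) ^ l : ℕ) : ℝ) ≤ 2 * (M * B) := by
      have h1 : ((2 * 4 ^ n * (a + q - 1) ^ l : ℕ) : ℝ) ≤ ((2 * 4 ^ n * (a + q) ^ l : ℕ) : ℝ) := by
        exact_mod_cast Nat.mul_le_mul_left _ (Nat.pow_le_pow_left (Nat.sub_le _ _) _)
      refine h1.trans ?_
      push_cast
      calc (2 : ℝ) * 4 ^ n * ((a : ℝ) + q) ^ l ≤ 2 * 4 ^ n * ((1 + s) * a) ^ l := by
            gcongr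
            linarith
        _ = 2 * (M * B) := by rw [hM, hB, mul_pow]; ring
    have e4 : ((3 ^ n * E : ℕ) : ℝ) ≤ M * B := by
      push_cast
      have : (3 : ℝ) ^ n * (E : ℝ) ≤ 4 ^ n := by
        have := hn.le
        linarith
      calc (3 : ℝ) ^ n * (E : ℝ) ≤ 4 ^ n := this
        _ ≤ M := h4M
        _ ≤ M * B := le_mul_of_one_le_right hM0.le hB1
    have e5 : ub n l a q U = 2 * 4 ^ n * (2 * a - 1) ^ l + 2 * 4 ^ n * (U * (a + 1) ^ l) +
        2 * 4 ^ n * (a + q - 1) ^ l + 3 ^ n * E := by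
      rw [hE]; unfold ub; ring
    rw [e5, Nat.cast_add, Nat.cast_add, Nat.cast_add]
    linarith
  -- the lower bounds
  have hlow : M ≤ ((AA n l a q U).card : ℝ) := by
    have := card_AA_lower n l a q U hU0 (by omega)
    rw [hM]
    exact_mod_cast this
  have hlow2 : M * (B * ((2 * s) ^ l / 2)) ≤ ((dl 2 (AA n l a q U) (AA n l a q U)).card : ℝ) := by
    have h1 := card_dl_AA_lower n l a q U
    have h2 : ((4 ^ n * (U * (2 * q) ^ l) : ℕ) : ℝ) ≤
        ((dl 2 (AA n l a q U) (AA n l a q U)).card : ℝ) := by exact_mod_cast h1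
    refine le_trans ?_ h2
    push_cast
    have hsa : (0 : ℝ) < s * a := by positivity
    have h3 : (2 * s * a) ^ l / 2 ≤ (2 * (q : ℝ)) ^ l := by
      have h4 : (2 * s * a) ^ l * (1 - 1 / (s * a)) ^ l ≤ (2 * (q : ℝ)) ^ l := by
        rw [← mul_pow]
        refine pow_le_pow_left₀ ?_ ?_ l
        · have : 1 / (s * a) ≤ 1 := by
            rw [div_le_one hsa]; nlinarith
          have h7 : 0 ≤ 1 - 1 / (s * a) := by linarith
          positivity
        · have : 2 * s * (a : ℝ) * (1 - 1 / (s * a)) = 2 * (s * a - 1) := by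
            field_simp
          rw [this]; linarith
      have h5 : (1 : ℝ) / 2 ≤ (1 - 1 / (s * a)) ^ l := by
        have h6 := one_add_mul_le_pow (a := -(1 / (s * (a : ℝ)))) (by
          have : 1 / (s * (a : ℝ)) ≤ 1 := by rw [div_le_one hsa]; nlinarith
          linarith) l
        have h7 : (l : ℝ) * (1 / (s * a)) ≤ 1 / 2 := by
          rw [mul_one_div, div_le_div_iff₀ hsa (by norm_num)]
          nlinarith
        have h8 : (1 : ℝ) + -(1 / (s * a)) = 1 - 1 / (s * a) := by ring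
        rw [h8] at h6
        linarith
      refine le_trans ?_ h4
      rw [div_eq_mul_one_div]
      exact mul_le_mul_of_nonneg_left h5 (by positivity)
    have h9 : M * (B * ((2 * s) ^ l / 2)) = 4 ^ n * (B * ((2 * s * a) ^ l / 2)) := by
      rw [hM, mul_pow (2 * s) (a : ℝ)]; ring
    rw [h9]
    gcongr
  refine ⟨AA n l a q U, ?_, ?_⟩
  · rw [← Finset.card_pos]
    have : (0 : ℝ) < ((AA n l a q U).card : ℝ) := hM0.trans_le hlow
    exact_mod_cast this
  have hup : ((dl 1 (AA n l a q U) (AA n l a q U)).card : ℝ) ≤ 17 * (M * B) :=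
    (by exact_mod_cast card_AA_upper n l a q U :
      ((dl 1 (AA n l a q U) (AA n l a q U)).card : ℝ) ≤ ((ub n l a q U : ℕ) : ℝ)).trans hub
  have hB0 : (0 : ℝ) < B := by linarith
  calc C * ((dl 1 (AA n l a q U) (AA n l a q U)).card : ℝ) ^ θ
      ≤ C * (17 * (M * B)) ^ θ := by
        refine mul_le_mul_of_nonneg_left ?_ hC
        exact Real.rpow_le_rpow (Nat.cast_nonneg _) hup (by linarith)
    _ = M ^ θ * (C * 17 ^ θ * B ^ θ) := by
        rw [Real.mul_rpow (by norm_num) (by positivity), Real.mul_rpow hM0.le hB0.le]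
        ring
    _ < M ^ θ * (B * ((2 * s) ^ l / 2)) := by
        refine mul_lt_mul_of_pos_left ?_ (Real.rpow_pos_of_pos hM0 θ)
        have h1 : B ^ θ = ((1 + s) ^ θ) ^ l := by
          rw [hB, ← Real.rpow_natCast, ← Real.rpow_natCast, ← Real.rpow_mul hs0.le,
            ← Real.rpow_mul hs0.le, mul_comm]
        have h2 : (2 * s * (1 + s)) ^ l = B * (2 * s) ^ l := by rw [hB, mul_pow]; ring
        rw [h1]
        rw [h2] at hl
        linarith
    _ = M ^ (θ - 1) * (M * (B * ((2 * s) ^ l / 2))) := by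
        rw [Real.rpow_sub_one hM0.ne']
        field_simp
    _ ≤ _ := by
        refine mul_le_mul ?_ hlow2 (by positivity) (by positivity)
        exact Real.rpow_le_rpow hM0.le hlow (by linarith)

theorem card_le_dl_one (A : Finset ℤ) (hA : A.Nonempty) : A.card ≤ (dl 1 A A).card := by
  obtain ⟨b, hb⟩ := hA
  refine Finset.card_le_card_of_injOn (fun a => a + 1 * b) ?_ ?_
  · intro a ha
    exact mem_dl.2 ⟨a, ha, b, hb, rfl⟩
  · intro a _ a' _ h
    simpa using h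

theorem exists_both (s θ C : ℝ) (hs : 1 ≤ s) (hθ : 2 ≤ θ) (hC : 0 ≤ C)
    (h : (1 + s) ^ θ < 2 * s * (1 + s)) :
    ∃ A : Finset ℤ, A.Nonempty ∧
      C * ((dl 1 A A).card : ℝ) ^ θ < (A.card : ℝ) ^ (θ - 1) * ((dl 2 A A).card : ℝ) ∧
      C * ((dl 1 A A).card : ℝ) ^ 2 < (A.card : ℝ) * ((dl 2 A A).card : ℝ) := by
  obtain ⟨A, hA, h1⟩ := exists_params s θ C hs (by linarith) hC h
  refine ⟨A, hA, h1, ?_⟩
  have hm : (0 : ℝ) < A.card := by exact_mod_cast hA.card_pos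
  have hK : (A.card : ℝ) ≤ ((dl 1 A A).card : ℝ) := by exact_mod_cast card_le_dl_one A hA
  have hD : (0 : ℝ) < ((dl 1 A A).card : ℝ) := hm.trans_le hK
  have e1 : ((dl 1 A A).card : ℝ) ^ θ =
      ((dl 1 A A).card : ℝ) ^ 2 * ((dl 1 A A).card : ℝ) ^ (θ - 2) := by
    rw [← Real.rpow_natCast _ 2, ← Real.rpow_add hD]; congr 1; push_cast; ring
  have e2 : (A.card : ℝ) ^ (θ - 1) = (A.card : ℝ) * (A.card : ℝ) ^ (θ - 2) := by
    nth_rewrite 2 [← Real.rpow_one (A.card : ℝ)]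
    rw [← Real.rpow_add hm]; congr 1; ring
  have e3 : (A.card : ℝ) ^ (θ - 2) ≤ ((dl 1 A A).card : ℝ) ^ (θ - 2) :=
    Real.rpow_le_rpow hm.le hK (by linarith)
  have hp : (0 : ℝ) < (A.card : ℝ) ^ (θ - 2) := Real.rpow_pos_of_pos hm _
  rw [e1, e2] at h1
  refine lt_of_mul_lt_mul_right ?_ hp.le
  calc C * ((dl 1 A A).card : ℝ) ^ 2 * (A.card : ℝ) ^ (θ - 2)
      ≤ C * ((dl 1 A A).card : ℝ) ^ 2 * ((dl 1 A A).card : ℝ) ^ (θ - 2) :=
        mul_le_mul_of_nonneg_left e3 (by positivity)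
    _ = C * (((dl 1 A A).card : ℝ) ^ 2 * ((dl 1 A A).card : ℝ) ^ (θ - 2)) := by ring
    _ < _ := h1
    _ = _ := by ring

theorem numeric : (1 + 17 / 5 : ℝ) ^ (2293 / 1000 : ℝ) < 2 * (17 / 5) * (1 + 17 / 5) := by
  have h1 : (22 / 5 : ℝ) ^ (2293 : ℕ) < (748 / 25) ^ (1000 : ℕ) := by
    rw [div_pow, div_pow, div_lt_div_iff₀ (by positivity) (by positivity)]
    have : (22 ^ 2293 * 25 ^ 1000 : ℕ) < 748 ^ 1000 * 5 ^ 2293 := by decide +kernel
    exact_mod_cast this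
  have h2 := Real.rpow_lt_rpow (by positivity) h1 (by norm_num : (0 : ℝ) < 1 / 1000)
  rw [← Real.rpow_natCast, ← Real.rpow_natCast, ← Real.rpow_mul (by norm_num),
    ← Real.rpow_mul (by norm_num)] at h2
  have e1 : ((2293 : ℕ) : ℝ) * (1 / 1000) = 2293 / 1000 := by norm_num
  have e2 : ((1000 : ℕ) : ℝ) * (1 / 1000) = 1 := by norm_num
  rw [e1, e2, Real.rpow_one] at h2
  have e3 : (1 + 17 / 5 : ℝ) = 22 / 5 := by norm_num
  rw [e3]
  refine h2.trans_le ?_
  norm_num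

end Pool.Agent.KS6_95.SD
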